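import Pool.Agent.helper38.TA.SpecR

/-!
# Project TA: row ITR (iteration and limit)
-/

set_option autoImplicit false

open Complex MeasureTheory Set

namespace Pool.Agent.TA

open Pool.Agent.BA (Par GG kl kf vf fV Bw Den PP wt lam gpf rgz)

theorem ITR_lamle (hLM : Pool.Agent.BA.LM_stmt) (b e : ℕ → ℝ) (h : ∀ p, |b p| ≤ e p) (m : ℕ) :
    |lam b m| ≤ lam e m := by
  have h1 := (hLM b e).2.2.2.1 m
  rw [h1]
  exact ((hLM (fun p => |b p|) e).2.2.2.2.1 (fun p => abs_nonneg _) h m).2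

theorem ITR_sum (hLM : Pool.Agent.BA.LM_stmt) (V : Type) (g : ℕ → V → ℝ → ℝ) (S : ℕ → Finset ℕ) (x₀ q C c₁ E : ℝ)
    (hE : 0 ≤ E) (hN : NLR V g S x₀ q C c₁) (hEc : E * Real.log q ≤ c₁) (b : ℕ → ℝ)
    (hb : ∀ p, |b p| ≤ E * wt S x₀ q p) (v : V) :
    Summable (fun m : ℕ => lam b m * g 0 v (m / √q)) := by
  have h1 := (hN E hE hEc v).1
  refine Summable.of_norm_bounded h1 ?_
  intro m
  rw [Real.norm_eq_abs, abs_mul]
  exact mul_le_mul_of_nonneg_right (ITR_lamle hLM b _ hb m) (abs_nonneg _)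

theorem ITR (hST : STR_stmt) (hLM : Pool.Agent.BA.LM_stmt) : ITR_stmt := by
  classical
  intro V _ _ g C₁ S x₀ q C c₁ E r Θ b hμ hq hC hE hr hwp hw0 hD hN hE1 hE2 hb hres hrE
  have hlq : 0 < Real.log q := Real.log_pos hq
  have hEc : E * Real.log q ≤ c₁ := by
    have := mul_pos hE hlq
    nlinarith
  set w : ℕ → ℝ := fun p => wt S x₀ q p with hw
  have hw0' : ∀ p, 0 ≤ w p := hw0
  -- one step
  let P : ℕ → (ℕ → ℝ) → Prop := fun i a =>
    (∀ p, |a p - b p| ≤ 2 * C * r * w p * (1 - (1 / 2) ^ i)) ∧ ReR V g q Θ a (r * (1 / 2) ^ i)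
  have hPE : ∀ (i : ℕ) (a : ℕ → ℝ), (∀ p, |a p - b p| ≤ 2 * C * r * w p * (1 - (1 / 2) ^ i)) →
      ∀ p, |a p| ≤ E * wt S x₀ q p := by
    intro i a ha p
    have h1 := ha p
    have h2 := hb p
    have h3 : |a p| ≤ |b p| + |a p - b p| := by
      have := abs_add_le (b p) (a p - b p)
      rwa [add_sub_cancel] at this
    have h4 : 2 * C * r * w p * (1 - (1 / 2) ^ i) ≤ 2 * C * r * w p := by
      have h5 : 0 ≤ 2 * C * r * w p := mul_nonneg (by positivity) (hw0' p)
      have h6 : (0 : ℝ) ≤ (1 / 2) ^ i := by positivity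
      nlinarith
    have h7 : 2 * C * r * w p ≤ E / 2 * w p := by
      apply mul_le_mul_of_nonneg_right _ (hw0' p)
      linarith
    have h8 : E / 2 * w p + E / 2 * w p = E * w p := by ring
    have h9 : |b p| ≤ E / 2 * w p := h2
    show |a p| ≤ E * w p
    linarith
  have step : ∀ (i : ℕ) (a : ℕ → ℝ), P i a → ∃ a' : ℕ → ℝ, P (i + 1) a' ∧
      ∀ p, |a' p - a p| ≤ C * r * w p * (1 / 2) ^ i := by
    intro i a ha
    have hr' : 0 ≤ r * (1 / 2) ^ i := by positivity
    obtain ⟨a', ha1, ha2⟩ := hST V g C₁ S x₀ q C c₁ E (r * (1 / 2) ^ i) Θ a hμ hq hC hE hr' hwp hw0 hD hN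
      hE1 hE2 (hPE i a ha.1) ha.2
    have h1 : ∀ p, |a' p - a p| ≤ C * r * w p * (1 / 2) ^ i := by
      intro p
      have h2 := ha1 p
      have h3 : C * (r * (1 / 2) ^ i) * wt S x₀ q p = C * r * w p * (1 / 2) ^ i := by
        rw [hw]
        ring
      rw [h3] at h2
      exact h2
    have h4 : ∀ p, |a' p - b p| ≤ 2 * C * r * w p * (1 - (1 / 2) ^ (i + 1)) := by
      intro p
      have h5 : |a' p - b p| ≤ |a' p - a p| + |a p - b p| := abs_sub_le _ _ _
      have h6 := ha.1 p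
      have h7 := h1 p
      have h8 : C * r * w p * (1 / 2) ^ i + 2 * C * r * w p * (1 - (1 / 2) ^ i) =
          2 * C * r * w p * (1 - (1 / 2) ^ (i + 1)) := by
        rw [pow_succ]
        ring
      linarith
    refine ⟨a', ⟨h4, ?_⟩, h1⟩
    have h9 := ha2 (hPE (i + 1) a' h4)
    have h10 : r * (1 / 2) ^ i / 2 = r * (1 / 2) ^ (i + 1) := by
      rw [pow_succ]
      ring
    rw [h10] at h9
    exact h9
  -- the sequence
  have hP0 : P 0 b := by
    refine ⟨fun p => ?_, ?_⟩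
    · simp
    · rw [pow_zero, mul_one]
      exact hres
  choose! nx hnx1 hnx2 using step
  let s : ℕ → (ℕ → ℝ) := fun i => Nat.rec b (fun i a => nx i a) i
  have hs0 : s 0 = b := rfl
  have hsS : ∀ i, s (i + 1) = nx i (s i) := fun i => rfl
  have hsP : ∀ i, P i (s i) := by
    intro i
    induction i with
    | zero => exact hP0
    | succ i ih =>
      rw [hsS]
      exact hnx1 i (s i) ih
  have hsd : ∀ i p, |s (i + 1) p - s i p| ≤ C * r * w p * (1 / 2) ^ i := by
    intro i p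
    rw [hsS]
    exact hnx2 i (s i) (hsP i) p
  -- the limit
  have hcau : ∀ p, CauchySeq fun i => s i p := by
    intro p
    apply cauchySeq_of_le_geometric (1 / 2) (C * r * w p) (by norm_num)
    intro i
    rw [dist_comm, Real.dist_eq]
    exact hsd i p
  have hlim : ∀ p, ∃ a : ℝ, Filter.Tendsto (fun i => s i p) Filter.atTop (nhds a) :=
    fun p => cauchySeq_tendsto_of_complete (hcau p)
  choose b' hb' using hlim
  have hdist : ∀ i p, |b' p - s i p| ≤ 2 * C * r * (1 / 2) ^ i * w p := by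
    intro i p
    have h1 := dist_le_of_le_geometric_of_tendsto (1 / 2) (C * r * w p) (by norm_num) (by
      intro i
      rw [dist_comm, Real.dist_eq]
      exact hsd i p) (hb' p) i
    rw [dist_comm, Real.dist_eq] at h1
    have h2 : C * r * w p * (1 / 2) ^ i / (1 - 1 / 2) = 2 * C * r * (1 / 2) ^ i * w p := by ring
    rw [h2] at h1
    exact h1
  have hbE : ∀ p, |b' p| ≤ E * wt S x₀ q p := by
    intro p
    exact le_of_tendsto (hb' p).abs (Filter.Eventually.of_forall fun i => hPE i (s i) (hsP i).1 p)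
  refine ⟨b', hbE, ?_⟩
  intro v
  obtain ⟨hN1, -⟩ := hN (2 * E) (by linarith) hE1 v
  have hs' : Summable (fun m : ℕ => lam b' m * g 0 v (m / √q)) :=
    ITR_sum hLM V g S x₀ q C c₁ E hE.le hN hEc _ hbE v
  set Z : ℝ := ∑' m : ℕ, lam (fun p => 2 * E * wt S x₀ q p) m * |g 0 v (m / √q)| with hZ
  have key : ∀ i : ℕ, |∑' m : ℕ, lam b' m * g 0 v (m / √q) - Θ v| ≤
      (r * (√q * MY (Real.log q) (g 0 v)) + 2 * C * r / E * Z) * (1 / 2) ^ i := by
    intro i
    have hsi : Summable (fun m : ℕ => lam (s i) m * g 0 v (m / √q)) :=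
      ITR_sum hLM V g S x₀ q C c₁ E hE.le hN hEc _ (hPE i (s i) (hsP i).1) v
    have h1 : |∑' m : ℕ, lam (s i) m * g 0 v (m / √q) - Θ v| ≤
        r * (1 / 2) ^ i * (√q * MY (Real.log q) (g 0 v)) := (hsP i).2 v
    have h2 : ∑' m : ℕ, lam b' m * g 0 v (m / √q) - ∑' m : ℕ, lam (s i) m * g 0 v (m / √q) =
        ∑' m : ℕ, (lam b' m - lam (s i) m) * g 0 v (m / √q) := by
      rw [← hs'.tsum_sub hsi]
      apply tsum_congr
      intro m
      ring
    have hlam : ∀ m : ℕ, |lam b' m - lam (s i) m| ≤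
        2 * C * r * (1 / 2) ^ i / E * lam (fun p => 2 * E * wt S x₀ q p) m := by
      intro m
      have h3 := (hLM b' (s i)).2.2.2.2.2 (2 * C * r * (1 / 2) ^ i / E)
        (fun p => E * wt S x₀ q p) (by positivity) hbE (hPE i (s i) (hsP i).1) (by
          intro p
          have h4 : 2 * C * r * (1 / 2) ^ i / E * (E * wt S x₀ q p) =
              2 * C * r * (1 / 2) ^ i * w p := by
            rw [hw]
            field_simp
          rw [h4]
          exact hdist i p) m
      have h5 : (fun p => 2 * (E * wt S x₀ q p)) = fun p => 2 * E * wt S x₀ q p := by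
        funext p
        ring
      rw [h5] at h3
      exact h3
    have h6 : |∑' m : ℕ, (lam b' m - lam (s i) m) * g 0 v (m / √q)| ≤
        2 * C * r * (1 / 2) ^ i / E * Z := by
      have h7 := tsum_of_norm_bounded (hN1.mul_left (2 * C * r * (1 / 2) ^ i / E)).hasSum
        (f := fun m : ℕ => (lam b' m - lam (s i) m) * g 0 v (m / √q)) (by
          intro m
          rw [Real.norm_eq_abs, abs_mul, ← mul_assoc]
          exact mul_le_mul_of_nonneg_right (hlam m) (abs_nonneg _))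
      rw [Real.norm_eq_abs, tsum_mul_left] at h7
      exact h7
    have h8 : ∑' m : ℕ, lam b' m * g 0 v (m / √q) - Θ v =
        (∑' m : ℕ, lam (s i) m * g 0 v (m / √q) - Θ v) +
          ∑' m : ℕ, (lam b' m - lam (s i) m) * g 0 v (m / √q) := by
      rw [← h2]
      ring
    rw [h8]
    refine (abs_add_le _ _).trans ?_
    have h9 : (r * (√q * MY (Real.log q) (g 0 v)) + 2 * C * r / E * Z) * (1 / 2) ^ i =
        r * (1 / 2) ^ i * (√q * MY (Real.log q) (g 0 v)) + 2 * C * r * (1 / 2) ^ i / E * Z := by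
      ring
    rw [h9]
    linarith
  have hlim0 : Filter.Tendsto (fun i : ℕ =>
      (r * (√q * MY (Real.log q) (g 0 v)) + 2 * C * r / E * Z) * (1 / 2 : ℝ) ^ i) Filter.atTop (nhds 0) := by
    have h1 := (tendsto_pow_atTop_nhds_zero_of_lt_one (by norm_num : (0 : ℝ) ≤ 1 / 2)
      (by norm_num : (1 / 2 : ℝ) < 1)).const_mul (r * (√q * MY (Real.log q) (g 0 v)) + 2 * C * r / E * Z)
    rw [mul_zero] at h1
    exact h1
  rw [zero_mul]
  exact ge_of_tendsto' hlim0 key

end Pool.Agent.TA
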